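import Pool.Agent.Helper70.EC.St

set_option autoImplicit false

namespace Pool.Agent.Helper15.EC

open Finset
open scoped LinearAlgebra.Projectivization
open Pool.Agent.Helper70.EC
open Pool.Agent.Helper1.PFS (G uu mm cor inf')

section

variable {p : ℕ} [Fact p.Prime]

private lemma finPt : Finite (Pt p) := by
  have : Function.Surjective (fun v : {v : Fin 2 → ZMod p // v ≠ 0} =>
      Projectivization.mk (ZMod p) v.1 v.2) := by
    intro x
    induction x using Projectivization.ind with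
    | h v hv => exact ⟨⟨v, hv⟩, rfl⟩
  exact Finite.of_surjective _ this

private lemma cardPt : Nat.card (Pt p) = p + 1 := by
  have h := Projectivization.card_of_finrank_two (ZMod p) (Fin 2 → ZMod p) (by simp)
  rw [Nat.card_zmod] at h
  exact h

open Classical in
/-- number of the pairs of `E` which `g` realises -/
private noncomputable def FF (E : Finset (Pt p × Pt p)) (g : G p) : ℕ :=
  (E.filter (fun e => g • e.1 = e.2)).card

open Classical in
/-- the weights -/
private noncomputable def ff (S : Set (G p)) (E : Finset (Pt p × Pt p)) (e : Pt p × Pt p)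
    (g : G p) : ℝ := if g ∈ S ∧ g • e.1 = e.2 then 1 / (FF E g : ℝ) else 0

private lemma ff_nonneg (S : Set (G p)) (E : Finset (Pt p × Pt p)) (e : Pt p × Pt p)
    (g : G p) : 0 ≤ ff S E e g := by
  unfold ff
  split_ifs
  · positivity
  · exact le_rfl

open Classical in
private lemma sum_ff (S : Set (G p)) (E : Finset (Pt p × Pt p)) (g : G p) :
    ∑ e ∈ E, ff S E e g = if g ∈ S ∧ ∃ e ∈ E, g • e.1 = e.2 then 1 else 0 := by
  by_cases hg : g ∈ S
  · have h1 : ∑ e ∈ E, ff S E e g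
        = ∑ _e ∈ E.filter (fun e => g • e.1 = e.2), (1 / (FF E g : ℝ)) := by
      rw [sum_filter]
      refine sum_congr rfl fun e _ => ?_
      unfold ff
      by_cases h2 : g • e.1 = e.2
      · rw [if_pos ⟨hg, h2⟩, if_pos h2]
      · rw [if_neg (fun h => h2 h.2), if_neg h2]
    rw [h1, sum_const, nsmul_eq_mul]
    by_cases hE : ∃ e ∈ E, g • e.1 = e.2
    · rw [if_pos ⟨hg, hE⟩]
      obtain ⟨e, he, h2⟩ := hE
      have h3 : (FF E g : ℝ) ≠ 0 := by
        have : 0 < FF E g := card_pos.2 ⟨e, mem_filter.2 ⟨he, h2⟩⟩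
        positivity
      unfold FF at h3 ⊢
      field_simp
    · rw [if_neg (fun h => hE h.2)]
      have h4 : E.filter (fun e => g • e.1 = e.2) = ∅ := by
        rw [filter_eq_empty_iff]
        intro e he h
        exact hE ⟨e, he, h⟩
      rw [h4, card_empty]
      simp
  · rw [if_neg (fun h => hg h.1)]
    refine sum_eq_zero fun e _ => ?_
    unfold ff
    rw [if_neg (fun h => hg h.1)]

open Classical in
private lemma sum_ind (T : Set (G p)) :
    ∑ g : G p, (if g ∈ T then (1 : ℝ) else 0) = T.ncard := by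
  rw [← sum_filter, sum_const, nsmul_eq_mul, mul_one]
  congr 1
  rw [Set.ncard_eq_toFinset_card T (Set.toFinite T)]
  congr 1
  ext g
  rw [Set.Finite.mem_toFinset, mem_filter]
  exact ⟨fun h => h.2, fun h => ⟨mem_univ _, h⟩⟩

private lemma sum_le (S : Set (G p)) (E : Finset (Pt p × Pt p)) (Q : Pt p × Pt p → Prop)
    [DecidablePred Q] (T : Set (G p))
    (h : ∀ e ∈ E, Q e → ∀ g ∈ S, g • e.1 = e.2 → g ∈ T) :
    ∑ e ∈ E, (if Q e then ∑ g, ff S E e g else 0) ≤ T.ncard := by
  classical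
  rw [← sum_ind T]
  have h1 : ∑ e ∈ E, (if Q e then ∑ g, ff S E e g else 0)
      = ∑ g : G p, ∑ e ∈ E, (if Q e then ff S E e g else 0) := by
    rw [sum_comm]
    refine sum_congr rfl fun e _ => ?_
    by_cases hQ : Q e
    · simp [hQ]
    · simp [hQ]
  rw [h1]
  refine sum_le_sum fun g _ => ?_
  have h2 : ∑ e ∈ E, (if Q e then ff S E e g else 0) ≤ ∑ e ∈ E, ff S E e g := by
    refine sum_le_sum fun e _ => ?_
    split_ifs
    · exact le_rfl
    · exact ff_nonneg S E e g
  by_cases hT : g ∈ T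
  · rw [if_pos hT]
    refine h2.trans ?_
    rw [sum_ff]
    split_ifs
    · exact le_rfl
    · exact zero_le_one
  · rw [if_neg hT]
    refine le_of_eq (sum_eq_zero fun e he => ?_)
    by_cases hQ : Q e
    · rw [if_pos hQ]
      unfold ff
      rw [if_neg]
      rintro ⟨h3, h4⟩
      exact hT (h e he hQ g h3 h4)
    · rw [if_neg hQ]

end

/-- numbers -/
private lemma numN (p c : ℕ) (hp : 2 ≤ p) :
    162 * p ^ 7 * c ≤ 4000 * p * c * (p * (p ^ 2 - 1)) ^ 2 := by
  obtain ⟨k, hk⟩ : ∃ k, p ^ 2 = k + 1 := ⟨p ^ 2 - 1, by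
    have : 1 ≤ p ^ 2 := Nat.one_le_pow _ _ (by omega)
    omega⟩
  have h4 : 4 ≤ p ^ 2 := by nlinarith
  have hk3 : 3 ≤ k := by omega
  have h1 : p ^ 2 - 1 = k := by omega
  rw [h1]
  have h2 : 9 * (p ^ 2) ^ 2 ≤ 16 * k ^ 2 := by
    rw [hk]
    nlinarith
  have h3 : 162 * p ^ 7 * c = 18 * (p ^ 3 * c) * (9 * (p ^ 2) ^ 2) := by ring
  have h5 : 4000 * p * c * (p * k) ^ 2 = 250 * (p ^ 3 * c) * (16 * k ^ 2) := by ring
  rw [h3, h5]
  exact Nat.mul_le_mul (Nat.mul_le_mul_right _ (by norm_num)) h2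

theorem hT1 (hCORE : StCORE) (hSTAR : StSTAR) : StT1 := by
  intro p _ S hS E
  classical
  have hp2 : 2 ≤ p := (Fact.out : p.Prime).two_le
  have : Finite (Pt p) := finPt
  obtain ⟨NN, hNN⟩ : ∃ NN : Set (G p), NN = {g | g ∈ S ∧ ∃ e ∈ E, g • e.1 = e.2} := ⟨_, rfl⟩
  have hNm : ∀ g, g ∈ NN ↔ g ∈ S ∧ ∃ e ∈ E, g • e.1 = e.2 := fun g => by rw [hNN]; exact Iff.rfl
  rw [← hNN]
  set N := NN.ncard with hN
  set n2 := (p * (p ^ 2 - 1)) ^ 2 with hn2
  -- reduction to `M ≥ N / 6`
  have hred : ∀ (M k : ℕ), N ≤ 6 * M → M ^ 3 ≤ 18 * p * k * n2 → k ≤ E.ncard →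
      N ^ 3 ≤ 4000 * p * E.ncard * n2 := by
    intro M k h1 h2 h3
    calc N ^ 3 ≤ (6 * M) ^ 3 := Nat.pow_le_pow_left h1 3
      _ = 216 * M ^ 3 := by ring
      _ ≤ 216 * (18 * p * k * n2) := Nat.mul_le_mul_left _ h2
      _ ≤ 216 * (18 * p * E.ncard * n2) := by gcongr
      _ = 3888 * (p * E.ncard * n2) := by ring
      _ ≤ 4000 * (p * E.ncard * n2) := Nat.mul_le_mul_right _ (by norm_num)
      _ = 4000 * p * E.ncard * n2 := by ring
  rcases Nat.lt_or_ge p E.ncard with hE | hE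
  · -- many pairs
    have h1 := (hSTAR p S hS (inf' p) Set.univ).1
    have h2 : (Set.univ : Set (Pt p)).ncard = p + 1 := by
      rw [Set.ncard_univ, cardPt]
    refine hred _ _ ?_ h1 (by rw [h2]; exact hE)
    have h3 : N ≤ {g | g ∈ S ∧ g • inf' p ∈ (Set.univ : Set (Pt p))}.ncard :=
      Set.ncard_le_ncard (fun g hg => ⟨((hNm g).1 hg).1, Set.mem_univ _⟩) (Set.toFinite _)
    omega
  · set E' : Finset (Pt p × Pt p) := (Set.toFinite E).toFinset with hE'
    have hcard : E'.card = E.ncard := (Set.ncard_eq_toFinset_card E (Set.toFinite E)).symm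
    have hmem : ∀ e, e ∈ E' ↔ e ∈ E := fun e => (Set.toFinite E).mem_toFinset
    have hind : ∀ g : G p, ∑ e ∈ E', ff S E' e g
        = if g ∈ NN then 1 else 0 := by
      intro g
      rw [sum_ff]
      refine if_congr ?_ rfl rfl
      rw [hNm g]
      constructor
      · rintro ⟨h1, e, h2, h3⟩
        exact ⟨h1, e, (hmem e).1 h2, h3⟩
      · rintro ⟨h1, e, h2, h3⟩
        exact ⟨h1, e, (hmem e).2 h2, h3⟩
    have hsum : ∑ e ∈ E', ∑ g, ff S E' e g = (N : ℝ) := by
      rw [sum_comm, hN, ← sum_ind]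
      exact sum_congr rfl fun g _ => hind g
    have hTT : TT (fun g => ∑ e ∈ E', ff S E' e g) (fun g => ∑ e ∈ E', ff S E' e g)
        (fun g => ∑ e ∈ E', ff S E' e g) = 0 := by
      unfold TT
      refine sum_eq_zero fun a _ => sum_eq_zero fun b _ => ?_
      simp only [hind]
      by_cases ha : a ∈ S
      · by_cases hb : b ∈ S
        · have hab : ¬ a * b ∈ NN := fun h => hS a ha b hb ((hNm _).1 h).1
          rw [if_neg hab, mul_zero]
        · have hb' : ¬ b ∈ NN := fun h => hb ((hNm _).1 h).1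
          rw [if_neg hb', mul_zero, zero_mul]
      · have ha' : ¬ a ∈ NN := fun h => ha ((hNm _).1 h).1
        rw [if_neg ha', zero_mul, zero_mul]
    by_cases hA : ∀ v : Pt p, ∑ e ∈ E', (if e.1 = v then ∑ g, ff S E' e g else 0)
        ≤ (∑ e ∈ E', ∑ g, ff S E' e g) / 6
    · by_cases hB : ∀ v : Pt p, ∑ e ∈ E', (if e.2 = v then ∑ g, ff S E' e g else 0)
          ≤ (∑ e ∈ E', ∑ g, ff S E' e g) / 6
      · have hc := hCORE p E' (ff S E') (fun e _ g hg => by
          unfold ff
          rw [if_neg (fun h => hg h.2)]) (fun e _ g => ff_nonneg S E' e g)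
          (by rw [hcard]; exact hE) (fun g => by
            rw [hind g]
            split_ifs
            · exact le_rfl
            · exact zero_le_one) hTT hA hB
        rw [hsum, hcard] at hc
        have hc' : N ^ 3 ≤ 162 * p ^ 7 * E.ncard := by exact_mod_cast hc
        exact hc'.trans (numN p _ hp2)
      · push Not at hB
        obtain ⟨v, hv⟩ := hB
        rw [hsum] at hv
        set Θ : Set (Pt p) := {x | (x, v) ∈ E} with hΘ
        have h1 := (hSTAR p S hS v Θ).2
        have h2 := sum_le S E' (fun e => e.2 = v) {g | g ∈ S ∧ g⁻¹ • v ∈ Θ} (by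
          intro e he hQ g hg hge
          refine ⟨hg, ?_⟩
          rw [← hQ, ← hge, inv_smul_smul, hΘ, Set.mem_setOf_eq, ← hQ]
          exact (hmem _).1 he)
        refine hred _ _ ?_ h1 ?_
        · have h3 : (N : ℝ) / 6 < ({g | g ∈ S ∧ g⁻¹ • v ∈ Θ}.ncard : ℝ) := lt_of_lt_of_le hv h2
          have h4 : (N : ℝ) < ((6 * {g | g ∈ S ∧ g⁻¹ • v ∈ Θ}.ncard : ℕ) : ℝ) := by
            push_cast
            linarith
          exact le_of_lt (by exact_mod_cast h4)
        · exact Set.ncard_le_ncard_of_injOn (fun x => (x, v)) (fun x hx => hx)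
            (fun x _ y _ h => (Prod.mk.inj h).1) (Set.toFinite E)
    · push Not at hA
      obtain ⟨v, hv⟩ := hA
      rw [hsum] at hv
      set Θ : Set (Pt p) := {y | (v, y) ∈ E} with hΘ
      have h1 := (hSTAR p S hS v Θ).1
      have h2 := sum_le S E' (fun e => e.1 = v) {g | g ∈ S ∧ g • v ∈ Θ} (by
        intro e he hQ g hg hge
        refine ⟨hg, ?_⟩
        rw [hΘ, Set.mem_setOf_eq, ← hQ, hge]
        exact (hmem _).1 he)
      refine hred _ _ ?_ h1 ?_
      · have h3 : (N : ℝ) / 6 < ({g | g ∈ S ∧ g • v ∈ Θ}.ncard : ℝ) := lt_of_lt_of_le hv h2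
        have h4 : (N : ℝ) < ((6 * {g | g ∈ S ∧ g • v ∈ Θ}.ncard : ℕ) : ℝ) := by
          push_cast
          linarith
        exact le_of_lt (by exact_mod_cast h4)
      · exact Set.ncard_le_ncard_of_injOn (fun y => (v, y)) (fun x hx => hx)
          (fun x _ y _ h => (Prod.mk.inj h).2) (Set.toFinite E)

end Pool.Agent.Helper15.EC
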